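import Pool.Agent.Q226.PS.Main

set_option autoImplicit false

/-!
# Conservativity for products of surfaces and abelian varieties: definitions and known facts
-/

open CategoryTheory CategoryTheory.Limits MonoidalCategory Pretriangulated

universe v u v₁ u₁ v₂ u₂

namespace Pool.Agent.Q226.PSC

open Pool.Agent.Q226.SC (Geo Motives IsSummand PowerFibres)
open Pool.Agent.Q226.PS

variable {G : Geo} {𝓜 : Type u} [Category.{v} 𝓜] [MonoidalCategory 𝓜] [Preadditive 𝓜]

section pure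

/-- `N` has no phantom summands: an idempotent endomorphism of `N` that acts as zero on the
cohomology is zero. -/
def NoPhantom (D : Data G 𝓜) (N : 𝓜) : Prop := ∀ p : N ⟶ N, p ≫ p = p → D.null p → p = 0

/-- No product of curves, surfaces and abelian varieties has a phantom summand. -/
def ProductsWithoutPhantoms (D : Data G 𝓜) : Prop :=
  ∀ l : List G.Var, (∀ X ∈ l, G.dim X ≤ 2 ∨ D.AV X) → NoPhantom D (D.prod l)

/-- Further data: `tr S` is the transcendental motive `t²(S)` of a surface `S` (Kahn, Murre,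
Pedrini), `rank S` is the rank `b₂(S) - ρ(S)` of its cohomology. -/
structure Extra (D : Data G 𝓜) where
  /-- the transcendental motive `t²(S)` of the surface `S` -/
  tr : G.Var → 𝓜
  /-- the number `b₂(S) - ρ(S)` -/
  rank : G.Var → ℕ

/-- For each surface `S` in `𝒮` there is one `m > b₂(S) - ρ(S)` such that `h(S^m)` has no phantom
summand. -/
def OnePower (D : Data G 𝓜) (E : Extra D) (𝒮 : G.Var → Prop) : Prop :=
  ∀ S : G.Var, 𝒮 S → ∃ m : ℕ, E.rank S < m ∧ NoPhantom D (D.power S m)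

variable [Linear ℚ 𝓜]

/-- The projector `(1 / m!) ∑ sign(σ) σ` of `N^(⊗ m)`, with image `Λ^m N`. -/
def alt (D : Data G 𝓜) (N : 𝓜) (m : ℕ) : tp N m ⟶ tp N m :=
  (m.factorial : ℚ)⁻¹ • ∑ σ : Equiv.Perm (Fin m),
    ((Equiv.Perm.sign σ : ℤ) : ℚ) • (D.perm N m σ : tp N m ⟶ tp N m)

/-- `N` is evenly finite-dimensional: `Λ^m N = 0` for some `m ≥ 1`. -/
def Ev (D : Data G 𝓜) (N : 𝓜) : Prop := ∃ m : ℕ, 0 < m ∧ alt D N m = 0

/-- For each surface `S` in `𝒮` some exterior power of the transcendental motive `t²(S)` is zero. -/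
def ExteriorPowers (D : Data G 𝓜) (E : Extra D) (𝒮 : G.Var → Prop) : Prop :=
  ∀ S : G.Var, 𝒮 S → Ev D (E.tr S)

/-- `N` is oddly finite-dimensional: `Sym^m N = 0` for some `m ≥ 1`. -/
def Od (D : Data G 𝓜) (N : 𝓜) : Prop := ∃ m : ℕ, 0 < m ∧ D.sym N m = 0

/-- `N` is finite-dimensional (Kimura): a direct summand of a finite direct sum of evenly or oddly
finite-dimensional motives. -/
def FinDim (D : Data G 𝓜) (N : 𝓜) : Prop := Fac (fun K => Ev D K ∨ Od D K) N

/-- All products of curves, surfaces and abelian varieties have finite-dimensional motives. -/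
def ProductsFinDim (D : Data G 𝓜) : Prop :=
  ∀ l : List G.Var, (∀ X ∈ l, G.dim X ≤ 2 ∨ D.AV X) → FinDim D (D.prod l)

/-- Known facts.
* `split`: `h(S) = 1 ⊕ L^ρ ⊕ t²(S) ⊕ L²` for a simply connected surface.
* `alt_null`: the cohomology of `Λ^m t²(S)` is the `m`-th exterior power of a vector space of
  dimension `rank S`.
* `ee`, `eo`, `oe`, `oo`: tensor products of evenly or oddly finite-dimensional motives (Kimura).
* `comp_even`, `comp_odd`: the motives `h^j(A)` (Shermenev, Kimura). -/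
structure Extra.Facts {D : Data G 𝓜} (E : Extra D) : Prop where
  split : ∀ S : G.Var, G.dim S = 2 → G.SC S → IsSummand (E.tr S) (D.h S) ∧
    Fac (fun N => N = E.tr S ∨ ∃ i : ℤ, N = D.L i) (D.h S)
  alt_null : ∀ S : G.Var, G.dim S = 2 → G.SC S → ∀ m : ℕ, E.rank S < m →
    D.null (alt D (E.tr S) m)
  ee : ∀ N K : 𝓜, Ev D N → Ev D K → Ev D (N ⊗ K)
  eo : ∀ N K : 𝓜, Ev D N → Od D K → Od D (N ⊗ K)
  oe : ∀ N K : 𝓜, Od D N → Ev D K → Od D (N ⊗ K)
  oo : ∀ N K : 𝓜, Od D N → Od D K → Ev D (N ⊗ K)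
  comp_even : ∀ A : G.Var, D.AV A → ∀ j : ℕ, Even j → Ev D (D.comp A j)
  comp_odd : ∀ A : G.Var, D.AV A → ∀ j : ℕ, Odd j → Od D (D.comp A j)

end pure

section mixed

variable {𝓣 : Type u₁} [Category.{v₁} 𝓣] [HasZeroObject 𝓣] [HasShift 𝓣 ℤ] [Preadditive 𝓣]
  [∀ n : ℤ, (shiftFunctor 𝓣 n).Additive] [Pretriangulated 𝓣]

/-- The thick triangulated subcategory generated by the objects with the property `𝒞`. -/
inductive Thick (𝒞 : 𝓣 → Prop) : 𝓣 → Prop
  | base (N : 𝓣) : 𝒞 N → Thick 𝒞 N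
  | shift (N : 𝓣) (n : ℤ) : Thick 𝒞 N → Thick 𝒞 (N⟦n⟧)
  | cone (T : Triangle 𝓣) : T ∈ distTriang 𝓣 → Thick 𝒞 T.obj₁ → Thick 𝒞 T.obj₂ →
      Thick 𝒞 T.obj₃
  | summand (N K : 𝓣) : IsSummand N K → Thick 𝒞 K → Thick 𝒞 N

/-- The objects `h(X_1 × ⋯ × X_r) ⊗ L^i` of `DM_gm`, where the `X_j` are curves, surfaces or abelian
varieties. -/
def Generator (D : Data G 𝓜) (ι : 𝓜 ⥤ 𝓣) (C : 𝓣) : Prop :=
  ∃ (l : List G.Var) (i : ℤ), (∀ X ∈ l, G.dim X ≤ 2 ∨ D.AV X) ∧ C = ι.obj (D.prod l ⊗ D.L i)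

variable {𝓓 : Type u₂} [Category.{v₂} 𝓓]

/-- The realization is conservative on the thick triangulated subcategory of `DM_gm` generated by
the objects `h(X_1 × ⋯ × X_r) ⊗ L^i`, where the `X_j` are curves, surfaces or abelian varieties. -/
def ConservativeOnProducts (D : Data G 𝓜) (ι : 𝓜 ⥤ 𝓣) (R : 𝓣 ⥤ 𝓓) : Prop :=
  ∀ M N : 𝓣, Thick (Generator D ι) M → Thick (Generator D ι) N →
    ∀ f : M ⟶ N, IsIso (R.map f) → IsIso f

/-- Known facts on the embedding `ι` of the category of Chow motives into `DM_gm` and on the Betti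
realization `R`.
* `weights`: homological and numerical equivalence coincide on products of curves, surfaces and
  abelian varieties `X` (Lieberman, Kleiman), so that the category of their homological motives is
  semisimple (Jannsen). If all `h(X)` are finite-dimensional, then the homologically trivial
  endomorphisms of `h(X)` are nilpotent (Kimura), and `R` is conservative by means of the weight
  complex (Bondarko; Wildeshaus, Weights and conservativity). -/
structure Realization [Linear ℚ 𝓜] (D : Data G 𝓜) (ι : 𝓜 ⥤ 𝓣) (R : 𝓣 ⥤ 𝓓) : Prop where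
  embedding : ∀ N : 𝓜, IsZero (ι.obj N) → 𝟙 N = 0
  cohomology : ∀ N : 𝓜, D.null (𝟙 N) ↔ IsZero (R.obj (ι.obj N))
  weights : ProductsFinDim D → ∀ C : 𝓣, Thick (Generator D ι) C → IsZero (R.obj C) → IsZero C

end mixed

end Pool.Agent.Q226.PSC
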